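import Pool.Agent.helper5.DH.Defs

/-!
# Project dh: (MP_af9036_an, frozen S05829, all `n ≥ 2`): the closing

Paper: /team-store/MP_af9036_closing_helper5.md, quoted as [P, section] (it replaces sections 3-7 of /team-store/MP_af9036_ENDGAME_helper68.md). This file is the block after the POWER SAVING estimate `PS` (block of helper52, predicate `PSP` below).

SETTING. `n ≥ 2`, `f z = z ^ n + c`, `V_k = f^(-k)(D(0,4)) = HY.VV n c k`, `Φ k : UD → V_k` explicit Riemann maps with `Φ k 0 = 0` (`Tow`). Everything is written in coordinates of the unit disc `UD = ball 0 1`.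
`T a x = (x - a)/(1 - conj a x)`, `S a x = (x + a)/(1 + conj a x)`, `hd H x = ‖H' x‖/(1 - ‖H x‖²)`, `UN H`: `H` holomorphic and injective on `UD` with values in `UD`, `RM V a φ`: `φ` is a holomorphic bijection `UD → V` with `φ 0 = a`.

RULES. File `Pool/Agent/<seat>/DH/XX.lean`: `import Pool.Agent.helper5.DH.Spec` (and any proved module you want to use), `set_option autoImplicit false`,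
`open Complex Metric Set Filter Topology MeasureTheory Pool.Agent.helper98.ILF Pool.Agent.helper16.Multibrot`, `open HY (UD T S hd UN RM VV SG Orb fz)`, `noncomputable section`, `namespace DH`, `theorem XX (h : YY_stmt) ... : XX_stmt`. Hypotheses may be: other statements of this file (no circles), the statements of `HY`
(Pool/Agent/helper52/HY/Spec.lean: MOB HDI DLN PDC VKB RMI RMC SGE SHR CLB ..), of `NZ` (Pool/Agent/helper56/NZ/Spec.lean: CFR MON SCL LAM ..), `V3.KO0_stmt, KO1_stmt, KO2_stmt, KO3_stmt`, `MPS.LR_stmt, MPS.LRU_stmt`, `EX.DEN_stmt`, `EX.INJ_stmt`, `EX.NUL_stmt`.., `BR.BRG_stmt`, `BR.MBB_stmt` (all proved).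
Auxiliary lemmas prefixed `XX_`. No `sorry`, no straight double quotes in comments. Tell helper5 at once if a statement is false or a constant does not fit.
-/

set_option autoImplicit false

open Complex Metric Set Filter Topology MeasureTheory
open Pool.Agent.helper98.ILF Pool.Agent.helper16.Multibrot
open HY (UD T S hd UN RM VV SG Orb fz)

noncomputable section

namespace DH

/-! ## Coordinates -/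

/-- COP (short): coordinates. Uses `V3.KO0_stmt`.
PROOF. `Function.invFunOn_mem`, `Function.invFunOn_eq`, injectivity; `V = φ '' UD` is open (open mapping, or `KO0`), the inverse of an injective holomorphic map is holomorphic (look at the proofs of `HY.PDC`, `HY.BRH`, `NZ.BNX` for the lemma used there). -/
def COP_stmt : Prop := ∀ (V : Set ℂ) (a : ℂ) (φ : ℂ → ℂ), RM V a φ → IsOpen V ∧ a ∈ V ∧ co φ a = 0 ∧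
  (∀ z ∈ V, co φ z ∈ UD ∧ φ (co φ z) = z) ∧ (∀ x ∈ UD, φ x ∈ V ∧ co φ (φ x) = x) ∧ DifferentiableOn ℂ (co φ) V ∧
  (∀ x ∈ UD, deriv φ x ≠ 0)

/-- TOW (short/medium): the tower exists. Uses `HY.RMI_stmt`, `HY.RMC_stmt`, `HY.VKB_stmt`, `HY.MOB_stmt`.
PROOF. As in `HY.SGE`: `Φ 0 x = 4 x`. Given `Φ l` with `RM (VV n c l) 0 (Φ l)`: RMC (`c ∈ filled ⊆ VV n c l`): `b l ∈ UD`, `Φ l (b l) = c`, `RM (VV n c l) c (fun x => Φ l (S (b l) x))`; RMI: `Φ (l+1)` with `RM {z | fz n c z ∈ VV n c l} 0` and `f(Φ (l+1) x) = Φ l (S (b l) (x^n))`; `VV n c (l+1) = {z | fz n c z ∈ VV n c l}` (VKB). Recursion with `Nat.rec` on the subtype of the Riemann maps. -/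
def TOW_stmt : Prop := ∀ (n : ℕ) (c : ℂ), 2 ≤ n → c ∈ multibrot n → ∃ (Φ : ℕ → ℂ → ℂ) (b : ℕ → ℂ), Tow n c Φ b

/-- TSG (short): a level of the tower is a setting `SG`. Uses `HY.VKB_stmt`. -/
def TSG_stmt : Prop := ∀ (n : ℕ) (c : ℂ) (Φ : ℕ → ℂ → ℂ) (b : ℕ → ℂ), Tow n c Φ b → ∀ k : ℕ,
  SG n c (VV n c k) (Φ k) (Φ (k + 1)) (b k)

/-- BTP (short/medium): the maps `ch`, `bt`, `jj`. Uses COP, `HY.VKB_stmt`, `HY.MOB_stmt`, `HY.RMC_stmt`.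
PROOF. `p ∈ filled ⊆ V_(k+t)`; `ch` = `Φ (k+t) ∘ S a₀`, `a₀ = co (Φ (k+t)) p`. `f^i : V_(k+t) → V_(k+t-i)` (`z ∈ VV n c (m + i) ↔ f^i z ∈ VV n c m`, `Function.iterate_add`). `bt .. i 0 = co (Φ (k+t-i)) (f^i p)`. `jj`: `V_l ⊆ V_k`, `jj = co (Φ k) ∘ Φ l` injective holomorphic, `0 ↦ 0`. The points of the orbit of `p` are in `filled`, so in all `V_l`; Schwarz for `jj`. -/
def BTP_stmt : Prop := ∀ (n : ℕ) (c : ℂ) (Φ : ℕ → ℂ → ℂ) (b : ℕ → ℂ), Tow n c Φ b →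
  (∀ k l : ℕ, k ≤ l → UN (jj Φ k l) ∧ jj Φ k l 0 = 0 ∧ (∀ x ∈ UD, Φ k (jj Φ k l x) = Φ l x)) ∧
  ∀ (k t : ℕ) (p : ℂ), p ∈ filled n c →
  RM (VV n c (k + t)) p (ch Φ n c k t p) ∧
  (∀ (l i : ℕ), yv Φ n c l p i ∈ UD ∧ Φ l (yv Φ n c l p i) = (fz n c)^[i] p) ∧
  (∀ (k l i : ℕ), k ≤ l → jj Φ k l (yv Φ n c l p i) = yv Φ n c k p i ∧ ‖yv Φ n c k p i‖ ≤ ‖yv Φ n c l p i‖) ∧
  (∀ i ≤ t, DifferentiableOn ℂ (bt Φ n c k t p i) UD ∧ MapsTo (bt Φ n c k t p i) UD UD ∧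
    bt Φ n c k t p i 0 = yv Φ n c (k + t - i) p i ∧
    ∀ w ∈ UD, Φ (k + t - i) (bt Φ n c k t p i w) = (fz n c)^[i] (ch Φ n c k t p w))

/-! ## Obstacles -/

/-- TUB (long): the tube [P, 2]. Uses COP, BTP, TSG, `HY.MOB_stmt`, `HY.HDI_stmt`, `MPS.LR_stmt`, `MPS.LRU_stmt`, `HY.RMI_stmt`, `HY.VKB_stmt`, `V3.KO0_stmt`.
PROOF. `F = bt .. t`, `F₀ = F w`, `z_i = f^i(ch w)`. By downward induction on `i ≤ t` there is `X : UD → ℂ` holomorphic, injective, `X 0 = z_i`, and `E : UD → ball 0 B` holomorphic with `E 0 = F₀`, `Φ k (E x) = f^(t-i)(X x)` for `x ∈ UD` and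
`(B² - ‖F₀‖²)/B * (∏ j ∈ REL B with i ≤ j, ‖bt .. j w‖)^(n-1) ≤ ‖E' 0‖`. Note `X x ∈ V_(k+t-i)` because `f^(t-i)(X x) ∈ V_k`.
Start `i = t`: `E x = B * S (F₀/B) x` (`E' 0 = B (1 - ‖F₀/B‖²)`), `X = Φ k ∘ E`. Step `i+1 → i` (`i < t`), `X₁, E₁` given. (a) `c ∉ X₁ '' UD`: LR on the convex `UD`: `X x ^ n = X₁ x - c`, `X 0 = z_i` (`z_i ^ n = z_(i+1) - c`); injective; `E = E₁`; the product does not increase (`‖bt‖ ≤ 1`).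
(b) `c = X₁ q`, `q ∈ UD`. Then `f^(t-i) 0 = f^(t-i-1) c = Φ k (E₁ q)`, so `yv .. k 0 (t-i) = E₁ q` has norm `< B`: `i ∈ REL B`. RMI for `V = X₁ '' UD` and the Riemann map `X₁ ∘ S q` (value `c` at `0`; RMC): `X⁰ : UD → ℂ`, `X⁰ 0 = 0`, injective, `f(X⁰ y) = X₁ (S q (y^n))`, image `{z | f z ∈ X₁ '' UD} ∋ z_i`: `z_i = X⁰ y₀`.
`S q (y₀^n) = 0` (as `X₁ 0 = z_(i+1)`), so `‖y₀‖^n = ‖q‖`. `X = X⁰ ∘ S y₀`, `E = E₁ ∘ m`, `m x = S q ((S y₀ x)^n)`, `m : UD → UD`, `m 0 = 0`, `‖m' 0‖ = n ‖y₀‖^(n-1) (1 - ‖y₀‖²)/(1 - ‖y₀‖^(2n)) ≥ ‖y₀‖^(n-1)` (`1 - s^n ≤ n (1 - s)`, Bernoulli). `X⁰ '' UD ⊆ V_(k+t-i)`, so `co (Φ (k+t-i)) ∘ X⁰ : UD → UD` fixes `0`: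
Schwarz: `‖bt .. i w‖ = ‖co (Φ (k+t-i)) z_i‖ ≤ ‖y₀‖`. END `i = 0`: `X 0 = ch w`, `X '' UD ⊆ V_(k+t)`, `χ = co (ch) ∘ X` i.e. `χ x = co (ch Φ n c k t p) (X x)`; `F (χ x) = E x` (injectivity of `Φ k`). -/
def TUB_stmt : Prop := ∀ (n : ℕ) (c : ℂ) (Φ : ℕ → ℂ → ℂ) (b : ℕ → ℂ), Tow n c Φ b → ∀ (k t : ℕ) (p : ℂ), p ∈ filled n c →
  ∀ (B : ℝ) (w : ℂ), 0 < B → B ≤ 1 → w ∈ UD → ‖bt Φ n c k t p t w‖ < B → ∃ χ : ℂ → ℂ, UN χ ∧ χ 0 = w ∧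
  (∀ x ∈ UD, ‖bt Φ n c k t p t (χ x)‖ < B) ∧
  (B ^ 2 - ‖bt Φ n c k t p t w‖ ^ 2) / B * (∏ i ∈ REL Φ n c k t B, ‖bt Φ n c k t p i w‖) ^ (n - 1) ≤
    ‖deriv (fun x => bt Φ n c k t p t (χ x)) 0‖

/-- DIQ (short): the derivative inequality [P, 2, COR]. Uses TUB, BTP, `HY.MOB_stmt`, `HY.HDI_stmt`.
PROOF. Chain rule `(F ∘ χ)' 0 = F' w χ' 0`, and `‖χ' 0‖ ≤ 1 - ‖w‖²` (Schwarz-Pick for `χ : UD → UD`, `χ 0 = w`; HDI part 2 with `X = id`). -/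
def DIQ_stmt : Prop := ∀ (n : ℕ) (c : ℂ) (Φ : ℕ → ℂ → ℂ) (b : ℕ → ℂ), Tow n c Φ b → ∀ (k t : ℕ) (p : ℂ), p ∈ filled n c →
  ∀ (B : ℝ) (w : ℂ), 0 < B → B ≤ 1 → w ∈ UD → ‖bt Φ n c k t p t w‖ < B →
  (B ^ 2 - ‖bt Φ n c k t p t w‖ ^ 2) / B * (∏ i ∈ REL Φ n c k t B, ‖bt Φ n c k t p i w‖) ^ (n - 1) ≤
    ‖deriv (bt Φ n c k t p t) w‖ * (1 - ‖w‖ ^ 2)

/-- GRW (short/medium): growth of univalent functions, some exponent. Uses `V3.KO3_stmt`.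
PROOF. Normalise nothing: KO3 with `η = 1/4` on `ball x' (1 - ‖x'‖)`: constant `C`. If `‖x‖ ≤ 1/2`: KO3 on `ball 0 1`. If `1 - ‖x‖ < 1/2` let `x' = s x` with `1 - ‖x'‖ = 2 (1 - ‖x‖)`: `‖x - x'‖ = (1 - ‖x'‖)/2`, so `‖f' x‖ ≤ C ‖f' x'‖`. Induction on `m`: `1 - ‖x‖ ≥ 2^(-m)` implies `‖f' x‖ ≤ C^m ‖f' 0‖`. With `C ≤ 2^(E-1)`: `‖f' x‖ ≤ C' ‖f' 0‖ (1 - ‖x‖)^(-(E-1))`; mean value inequality on the segment. -/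
def GRW_stmt : Prop := ∃ (E : ℕ) (C : ℝ), 1 ≤ E ∧ 1 ≤ C ∧ ∀ f : ℂ → ℂ, DifferentiableOn ℂ f UD → InjOn f UD → f 0 = 0 →
  ∀ x ∈ UD, (1 - ‖x‖) ^ E * ‖f x‖ ≤ C * ‖deriv f 0‖

/-- PCK (medium): the inequality of Pick, some exponent. Uses GRW, `V3.KO0_stmt`.
PROOF. `κ = ‖j' 0‖`. Schwarz: `‖j x‖ ≤ ‖x‖`. GRW: if `‖j x‖ = 1/2` then `(1 - ‖x‖)^E ≤ 2 C₁ κ =: δ^E`. If `δ ≥ 1/16`: `(1 - ‖x‖)^E ≤ (1 - ‖j x‖)^E ≤ 16^E 2 C₁ κ (1 - ‖j x‖)^E`. Let `δ < 1/16`: `N` natural with `1/(4 δ) ≤ N ≤ 1/(2 δ)`: for `‖j x‖ = 1/2` we have `‖x‖^N ≥ 1 - N δ ≥ 1/2` (Bernoulli).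
Claim: `‖j x‖ ≤ ‖x‖^N` if `1/2 ≤ ‖j x‖`. `q x = j x/x^N` on `Ω_s = {x ∈ UD | ‖x‖ < s, 1/2 < ‖j x‖}` (open, bounded, `0 ∉` closure as `j 0 = 0`): on the frontier `‖j x‖ = 1/2` (`‖q‖ ≤ 1`) or `‖x‖ = s` (`‖q‖ ≤ s^(-N)`): `Complex.norm_le_of_forall_mem_frontier_norm_le`: `‖q‖ ≤ s^(-N)`, `s → 1`.
So `1 - ‖j x‖ ≥ 1 - ‖x‖^N ≥ 1 - exp(-N (1 - ‖x‖))`; if `N (1 - ‖x‖) ≤ 1` this is `≥ N (1 - ‖x‖)/2 ≥ (1 - ‖x‖)/(8 δ)`. If `N (1 - ‖x‖) > 1` then `‖j x‖ ≤ e^(-1) < 1/2`: impossible. So `(1 - ‖x‖)^E ≤ 8^E δ^E (1 - ‖j x‖)^E`. -/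
def PCK_stmt : Prop := ∃ (E : ℕ) (C : ℝ), 1 ≤ E ∧ 1 ≤ C ∧ ∀ j : ℂ → ℂ, UN j → j 0 = 0 → ∀ x ∈ UD, 1 / 2 ≤ ‖j x‖ →
  (1 - ‖x‖) ^ E ≤ C * ‖deriv j 0‖ * (1 - ‖j x‖) ^ E

/-- AFX (short/medium): a holomorphic self map of a disc with relatively compact image has an attracting fixed point.
PROOF. `h : ball 0 d → closedBall-like compact subset`: `‖h x‖ ≤ d' < d`. Fixed point: the contraction principle for the iterates (Schwarz-Pick / `Complex.dist_le_div_mul_dist_of_mapsTo_ball`), or Brouwer replaced by: `g = h` maps `ball 0 d` to itself; `T`-type contraction: for the pseudo hyperbolic distance `h` is a strict contraction; or Rouche.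
Simplest: `(x ↦ h x) ` iterates are normal, see the proof in `Pool/Agent/helper24/WP` or `NR`/`GR` (`attracting cycle` lemmas). Derivative at the fixed point `x₀`: Schwarz lemma at `x₀` (`T`) for `h : ball 0 d → ball 0 d'`, strict. -/
def AFX_stmt : Prop := ∀ (h : ℂ → ℂ) (d d' : ℝ), 0 < d → d' < d → DifferentiableOn ℂ h (ball 0 d) →
  (∀ x ∈ ball (0 : ℂ) d, ‖h x‖ ≤ d') → ∃ x₀ ∈ ball (0 : ℂ) d, h x₀ = x₀ ∧ ‖deriv h x₀‖ < 1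

/-- LBV (medium): near obstacles have small tubes [P, 1, LB]. Uses AFX, BTP, COP, `V3.KO1_stmt`, `HY.MOB_stmt`, `HY.VKB_stmt`.
PROOF. `κ = ‖(jj Φ k (k+u))' 0‖ ≤ 1`, `v = yv .. k 0 u`, `C` from KO1. Let `B x = co (Φ k) (f^u (Φ (k+u) x))` (`= bt` with `p = 0`), `B 0 = v`, `B = v + O(x^n)`: more precisely `T v ∘ B : UD → UD` has a zero of order at least `n ≥ 2` at `0` (by `rel`: `B x = B₁ (S b (x^n))`), so `‖T v (B x)‖ ≤ ‖x‖²` (apply Schwarz to `x ↦ (T v ∘ B₁ ∘ S b)(x)`, which fixes `0`, at `x^n`: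
`‖T v (B x)‖ ≤ ‖x‖^n`), `‖B x - v‖ ≤ 2 ‖x‖²`. Suppose `‖v‖ < κ²/(8 C²)`. `d = κ/(4 C)`: `B (ball 0 d) ⊆ closedBall 0 ρ'`, `ρ' = ‖v‖ + 2 d² < κ²/(4C²) = d κ/C`; KO1: `ball 0 (d κ/C) ⊆ jj '' ball 0 d`. Let `ρ' < ρ'' < d κ/C`; `h = (jj)⁻¹ ∘ B : ball 0 d → ball 0 d`;
`(jj)⁻¹` maps the compact `closedBall 0 ρ'` to a compact subset of `ball 0 d`, so `‖h x‖ ≤ d' < d`. AFX: `h x₀ = x₀`, `B x₀ = jj x₀`, i.e. `z₀ = Φ (k+u) x₀` satisfies `f^u z₀ = z₀`, `(f^u)'(z₀) = h' x₀` (`f^u ∘ Φ (k+u) = Φ (k+u) ∘ h` near `x₀`), of modulus `< 1`: contradiction to `AR`. -/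
def LBV_stmt : Prop := ∃ c₀ : ℝ, 0 < c₀ ∧ ∀ (n : ℕ) (c : ℂ) (Φ : ℕ → ℂ → ℂ) (b : ℕ → ℂ), Tow n c Φ b → BR.AR n c →
  ∀ k u : ℕ, 1 ≤ u → c₀ * ‖deriv (jj Φ k (k + u)) 0‖ ^ 2 ≤ ‖yv Φ n c k 0 u‖

/-- ETB (short/medium): near obstacles are invisible from the base point. Uses PCK, LBV, BTP.
PROOF. `i ∈ REL B`, `i < t`, `u = t - i ≥ 1`, `j = jj Φ k (k + t - i)`, `x = yv .. (k+t-i) p i`, `j x = yv .. k p i`, `‖j x‖ ≥ 1 - 2^(-M) ≥ 1/2` (far, `M ≥ 1`). PCK: `(1 - ‖x‖)^E ≤ C ‖j' 0‖`; LBV: `‖j' 0‖² ≤ B/c₀`. `q = 1/(2E)`. -/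
def ETB_stmt : Prop := ∃ (q C : ℝ), 0 < q ∧ 0 < C ∧ ∀ (n : ℕ) (c : ℂ) (Φ : ℕ → ℂ → ℂ) (b : ℕ → ℂ) (M k : ℕ) (p : ℂ) (t : ℕ),
  1 ≤ M → FA n c Φ b M k p t → BR.AR n c → ∀ B : ℝ, 0 < B → B ≤ 1 → ∀ i ∈ REL Φ n c k t B,
  1 - ‖yv Φ n c (k + t - i) p i‖ ≤ C * B ^ q

/-- BLS (short/medium): sums from counts (pure).
PROOF. The indices with `2^(-m-1) u < g i ≤ 2^(-m) u` contribute at most `2^(-m) u C (2^(-m-1) u)^(-γ) = C 2^γ u^(1-γ) 2^(-m(1-γ))`. Geometric series (finite sum over the occurring `m`). -/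
def BLS_stmt : Prop := ∀ C γ : ℝ, 0 ≤ C → 0 ≤ γ → γ < 1 → ∃ C' : ℝ, 0 < C' ∧ ∀ (ι : Finset ℕ) (g : ℕ → ℝ),
  (∀ i ∈ ι, 0 < g i ∧ g i ≤ 1) → (∀ s : ℝ, 0 < s → s ≤ 1 → (((ι.filter (fun i => s ≤ g i)).card : ℕ) : ℝ) ≤ C * s ^ (-γ)) →
  ∀ u : ℝ, 0 < u → u ≤ 1 → ∑ i ∈ ι.filter (fun i => g i ≤ u), g i ≤ C' * u ^ (1 - γ)

/-! ## The maximum principle -/

/-- MLC (medium): the local step. Uses `HY.MOB_stmt`.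
PROOF. By composition with `S w₀` one may assume `w₀ = 0`: `F₁ = F ∘ S w₀`, `G₁ = G ∘ S w₀`; `1 - ‖S w₀ x‖² = (1 - ‖w₀‖²)(1 - ‖x‖²)/‖1 + conj w₀ x‖²`, so `log (1 - ‖S w₀ x‖²) = log (1 - ‖x‖²) + const - 2 log ‖1 + conj w₀ x‖`, and the last term is absorbed in `G₁` (multiply by `exp` of a holomorphic function:
`(1 + conj w₀ x)^(-2μ) = exp (-2 μ log (1 + conj w₀ x))`, holomorphic without zeros near `0`); `‖F₁' 0‖ = ‖F' w₀‖(1 - ‖w₀‖²)`. `‖F x‖² = ‖F x - F 0‖² + 2 Re (conj (F 0) F x) - ‖F 0‖²`. So near `0` the function is `‖G̃ x‖ exp (μ (A ‖F x - F 0‖² + log (1 - ‖x‖²)))` with `G̃` holomorphic without zeros.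
`A ‖F x - F 0‖² ≥ (3/2)‖x‖²` near `0` (`A ‖F' 0‖² ≥ 2`), `log (1 - ‖x‖²) ≥ -(5/4)‖x‖²`. So `‖G̃ x‖ exp (μ ‖x‖²/4) ≤ ` value `≤ ‖G̃ 0‖` for small `x`: `‖G̃ x‖ < ‖G̃ 0‖` on a small circle: contradiction to the maximum modulus principle. -/
def MLC_stmt : Prop := ∀ (F G : ℂ → ℂ) (A μ : ℝ) (w₀ : ℂ), w₀ ∈ UD → DifferentiableOn ℂ F UD → MapsTo F UD UD →
  (∃ s > (0 : ℝ), ball w₀ s ⊆ UD ∧ DifferentiableOn ℂ G (ball w₀ s)) → G w₀ ≠ 0 → 0 < μ → 0 < A →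
  2 ≤ A * (‖deriv F w₀‖ * (1 - ‖w₀‖ ^ 2)) ^ 2 →
  ¬ ∀ᶠ x in 𝓝 w₀, ‖G x‖ * Real.exp (μ * (A * ‖F x‖ ^ 2 + Real.log (1 - ‖x‖ ^ 2))) ≤
    ‖G w₀‖ * Real.exp (μ * (A * ‖F w₀‖ ^ 2 + Real.log (1 - ‖w₀‖ ^ 2)))

/-- MPA (medium): the maximum principle [P, 3]. Uses MLC.
PROOF. `L = log (R/ε) > 0`, `λ₁ = L/θ`, `λ₂ = L/Λ`, `λ₃ = L/log (1/(1-r²))`. `E w = R/‖F w‖ · ‖P w‖^λ₁ · ‖Q w‖^λ₂ · exp (λ₃ (2A(‖F w‖² - 1) + log (1 - ‖w‖²)))` (`Real.rpow`), continuous on the compact set `K₀ = {w | ‖w‖ ≤ r, ε ≤ ‖F w‖ ≤ R, exp (-Λ) ≤ ‖Q w‖} ∋ 0`. Let `w₀` be a maximum point. Suppose `E 0 > 1` (otherwise the claim follows: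
`log (E 0) = log (R/‖F 0‖) + λ₁ log ‖P 0‖ + λ₂ log ‖Q 0‖ - 2A λ₃ (1 - ‖F 0‖²)`). `E w₀ > 1`, so `P w₀ ≠ 0`. `‖F w₀‖ = ε`: `E w₀ ≤ (R/ε) exp(-θ λ₁) = 1`. `‖F w₀‖ = R`: `≤ 1`. `‖Q w₀‖ = exp (-Λ)`: `≤ (R/ε) exp (-Λ λ₂) = 1`. `‖w₀‖ = r`: `≤ (R/ε)(1-r²)^λ₃ = 1`. So all inequalities are strict and `w₀` is a local maximum of `E`.
Near `w₀`: `P, Q, F` have no zeros on a small ball: holomorphic logarithms `p, q` of `P, Q` there; `G = R/F · exp (λ₁ p + λ₂ q)`, `E = ‖G‖ exp (λ₃ (2A‖F‖² + log (1-‖w‖²))) · exp (-2Aλ₃)`. MLC with `2A`, `μ = λ₃` (`H1`: `2 ≤ 2A(..)²`): contradiction. -/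
def MPA_stmt : Prop := ∀ (F P Q : ℂ → ℂ) (A r ε R θ Λ : ℝ), DifferentiableOn ℂ F UD → DifferentiableOn ℂ P UD →
  DifferentiableOn ℂ Q UD → MapsTo F UD UD → (∀ w ∈ UD, ‖P w‖ ≤ 1) → (∀ w ∈ UD, ‖Q w‖ ≤ 1) → 0 < A → 0 < r → r < 1 → 0 < ε →
  ε < R → R < 1 → 0 < θ → 0 < Λ →
  (∀ w ∈ UD, ‖F w‖ ≤ R → Real.exp (-Λ) ≤ ‖Q w‖ → 1 ≤ A * (‖deriv F w‖ * (1 - ‖w‖ ^ 2)) ^ 2) →
  (∀ w ∈ UD, ‖w‖ ≤ r → ‖F w‖ = ε → ‖P w‖ ≤ Real.exp (-θ)) →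
  ε < ‖F 0‖ → ‖F 0‖ < R → P 0 ≠ 0 → Real.exp (-Λ) < ‖Q 0‖ →
  Real.log (R / ‖F 0‖) ≤ Real.log (R / ε) *
    (-Real.log ‖P 0‖ / θ + -Real.log ‖Q 0‖ / Λ + 2 * A / Real.log (1 / (1 - r ^ 2)))

/-- LGS (short/medium): logarithms of products (pure). 
PROOF. `-log a ≤ 2 (1 - a)` for `1/2 ≤ a ≤ 1`. `-log ‖∏ b i‖ = ∑ -log ‖b i‖ ≤ 2 ∑ (1 - ‖b i‖)`. -/
def LGS_stmt : Prop := ∀ (ι : Finset ℕ) (a : ℕ → ℂ), (∀ i ∈ ι, 1 / 2 ≤ ‖a i‖ ∧ ‖a i‖ ≤ 1) →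
  (∏ i ∈ ι, a i) ≠ 0 ∧ -Real.log ‖∏ i ∈ ι, a i‖ ≤ 2 * ∑ i ∈ ι, (1 - ‖a i‖)

/-- MPC (long): the good point near `0` [P, 3]. Uses MPA, DIQ, BLS, LGS, ETB, BTP.
PROOF. `t₀ = 1 - 2^(-M)`, `R₂ = 1 - 2^(-(M+1))`, `R₁ = 1 - 2^(-(M+2))`; `C', γ` from PSP and BLS: for the finite set `REL R₁` and `g i = 1 - ‖a i‖`, `a i = yv .. (k+t-i) p i = bt .. i 0` (positive, `≤ 1`): `∑_(g i ≤ u) g i ≤ C' u^(1-γ)`, and `∑ g i ≤ C'` (`u = 1`). `‖a i‖ ≥ ‖yv .. k p i‖ ≥ t₀ ≥ 1/2` for `i < t`.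
`P w = ∏ i ∈ REL (2ε), bt .. i w`: `-log ‖P 0‖ ≤ 2 ∑_(REL 2ε) g i ≤ 2 C' (C₂ (2ε)^q)^(1-γ)` (ETB; `2ε ≤ R₁`, so `REL (2ε) ⊆ REL R₁`, all its `g i` are `≤ C₂ (2ε)^q`). Let `β(ε)` be this bound: `β(ε) log (1/ε) → 0`.
`F = bt .. t`, `F 0 = yv .. k p t`, `‖F 0‖ < t₀`. If `‖F 0‖ ≤ ε`: `w = 0` works when `β(ε) < θ`. Otherwise suppose that no `w` as claimed exists: for `‖w‖ ≤ ρ`, `‖F w‖ = ε`: `‖P w‖ ≤ exp (-θ)`.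
`Q w = (∏ i ∈ REL R₁ with g i ≤ u, bt .. i w)^Λ * ∏ i ∈ REL R₁ with g i > u, bt .. i w`, `Λ ≥ 1` natural: `-log ‖Q 0‖/Λ ≤ 2 C' u^(1-γ) + 2 C'/Λ`. If `exp (-Λ) ≤ ‖Q w‖` then the first product has norm `≥ exp (-1)` and the second `≥ exp (-Λ)`, so `∏_(REL R₁) ‖bt .. i w‖ ≥ exp (-1-Λ)`, and DIQ (`B = R₁`) for `‖F w‖ ≤ R₂`:
`((R₁² - R₂²)/R₁) exp (-(1+Λ)(n-1)) ≤ ‖F' w‖(1 - ‖w‖²)`: `A := (R₁/(R₁²-R₂²))² exp (2(1+Λ)(n-1))`. MPA with `R = R₂`, `r = ρ`: `log (R₂/t₀) ≤ log (1/ε) (β(ε)/θ + 2C' u^(1-γ) + 2C'/Λ + 2A/log (1/(1-ρ²)))`. Choose `ε` (also `2ε ≤ R₁`, `ε < R₂`, `β(ε) < θ`), then `u`, then `Λ`, then `ρ`: contradiction. (`ε` arbitrarily small is possible: see `ε ≤ ε₁`.) -/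
def MPC_stmt : Prop := ∀ (n : ℕ) (r : ℝ) (M : ℕ) (C γ : ℝ), 2 ≤ n → 0 < r → 1 ≤ M → 0 ≤ C → 0 ≤ γ → γ < 1 → PSP n r M C γ →
  ∀ θ > (0 : ℝ), ∃ ε : ℝ, 0 < ε ∧ ε ≤ 1 / 4 ∧ ∃ ρ : ℝ, 0 < ρ ∧ ρ < 1 ∧ ∀ c ∈ multibrot n, Disjoint (ball c r) (hyperbolic n) →
  ∀ (Φ : ℕ → ℂ → ℂ) (b : ℕ → ℂ) (k : ℕ) (p : ℂ) (t : ℕ), FA n c Φ b M k p t → BR.AR n c →
  ∃ w : ℂ, ‖w‖ ≤ ρ ∧ ‖bt Φ n c k t p t w‖ ≤ ε ∧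
    Real.exp (-θ) < ‖∏ i ∈ REL Φ n c k t (2 * ε), bt Φ n c k t p i w‖

/-! ## The branch over a disc around `0` -/

/-- LND (medium): an almost isometry covers a large disc (pure). Uses `HY.MOB_stmt`.
PROOF. `Ĝ = G/(2ε) : UD → UD`, `p = Ĝ 0`, `‖p‖ ≤ 1/2`, `A = T p ∘ Ĝ`, `A 0 = 0`, `‖A' 0‖ = ‖Ĝ' 0‖/(1 - ‖p‖²) ≥ exp (-θ₁) =: a` (near `1`). `A x = x h x` (`dslope`), `‖h‖ ≤ 1`, `‖h 0‖ ≥ a`: Schwarz-Pick (or Borel-Caratheodory / Harnack): `‖h x - h 0‖ ≤ δ(θ₁) → 0` for `‖x‖ ≤ 19/20`; Cauchy: `‖A' x - h 0‖ ≤ C δ` for `‖x‖ < 9/10`. So `A` is injective on `ball 0 (9/10)`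
(convex, derivative within `1/2 · ‖h 0‖` of the constant `h 0`) and `‖A x‖ ≥ (9/10)(a - δ) > 4/5` on `‖x‖ = 9/10`: `ball 0 (4/5) ⊆ A '' ball 0 (9/10)` (the image of the open ball is open, its intersection with `ball 0 (4/5)` is closed in it; connected). `g y = A⁻¹ (T p (y/4))`: `‖T p (y/4)‖ ≤ (1/2 + 1/4)/(1 + 1/8) = 2/3 < 4/5`. Holomorphic, injective, `G (g y) = 2ε y/4`. -/
def LND_stmt : Prop := ∃ θ₁ : ℝ, 0 < θ₁ ∧ ∀ (G : ℂ → ℂ) (ε : ℝ), 0 < ε → DifferentiableOn ℂ G UD → (∀ x ∈ UD, ‖G x‖ < 2 * ε) →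
  ‖G 0‖ ≤ ε → ((2 * ε) ^ 2 - ‖G 0‖ ^ 2) / (2 * ε) * Real.exp (-θ₁) ≤ ‖deriv G 0‖ →
  ∃ g : ℂ → ℂ, DifferentiableOn ℂ g UD ∧ InjOn g UD ∧ (∀ y ∈ UD, ‖g y‖ ≤ 9 / 10) ∧ ∀ y ∈ UD, G (g y) = ε / 2 * y

/-- CLS (medium/long): a univalent branch over a disc around `0`, bounded geometry [P, 4]. Uses MPC, TUB, LND, BTP, COP, `HY.MOB_stmt`, `HY.HDI_stmt`, `V3.KO0_stmt`, `V3.KO3_stmt`.
PROOF. `θ₁` from LND, `θ = θ₁/(n-1)` (`n ≥ 2`), `ε, ρ` from MPC. `w` from MPC; TUB with `B = 2ε` (`‖F w‖ ≤ ε < 2ε ≤ 1`): `χ`, `G = F ∘ χ`: `‖G' 0‖ ≥ ((2ε)² - ‖G 0‖²)/(2ε) · exp (-θ(n-1))`. LND: `g`. `X = ch ∘ χ ∘ g` (`ch = ch Φ n c k t p`): injective, `f^t(X y) = Φ k (F (χ (g y))) = Φ k (ε/2 · y)`, `X y ∈ V_(k+t)`. `c₂ = ε/2`.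
`w₁ = χ (g 0)`: `‖T w w₁‖ ≤ ‖g 0‖ ≤ 9/10` (Schwarz-Pick for `χ`, `χ 0 = w`), so `‖w₁‖ ≤ (ρ + 9/10)/(1 + 9ρ/10) =: ρ₂ < 1`. With `η = 1 - ρ₂` (KO3 for `ch` on `UD`, half of `η`): `‖ch w₁ - p‖ ≤ C ‖ch' 0‖`, `‖ch' w₁‖ ≥ ‖ch' 0‖/C`. `F' w₁ · (χ∘g)' 0 = ε/2` and `‖F' w₁‖ ≤ 1/(1 - ρ₂²)` (Schwarz-Pick): `‖(χ ∘ g)' 0‖ ≥ (ε/2)(1 - ρ₂²)`.
So `‖X' 0‖ ≥ ‖ch' 0‖ (ε/2)(1-ρ₂²)/C` and `‖X 0 - p‖ ≤ K ‖X' 0‖`. -/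
def CLS_stmt : Prop := ∀ (n : ℕ) (r : ℝ) (M : ℕ) (C γ : ℝ), 2 ≤ n → 0 < r → 1 ≤ M → 0 ≤ C → 0 ≤ γ → γ < 1 → PSP n r M C γ →
  ∃ c₂ K : ℝ, 0 < c₂ ∧ c₂ ≤ 1 / 2 ∧ 0 < K ∧ ∀ c ∈ multibrot n, Disjoint (ball c r) (hyperbolic n) →
  ∀ (Φ : ℕ → ℂ → ℂ) (b : ℕ → ℂ) (k : ℕ) (p : ℂ) (t : ℕ), FA n c Φ b M k p t → BR.AR n c →
  ∃ X : ℂ → ℂ, DifferentiableOn ℂ X UD ∧ InjOn X UD ∧ (∀ y ∈ UD, (fz n c)^[t] (X y) = Φ k (c₂ * y)) ∧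
    (∀ y ∈ UD, X y ∈ VV n c (k + t)) ∧ ‖X 0 - p‖ ≤ K * ‖deriv X 0‖

/-- FAE (short): first approach times exist. Uses BTP, COP, `V3.KO1_stmt`, `V3.KO0_stmt`, `HY.VKB_stmt`.
PROOF. `Φ k '' ball 0 (1/2)` contains a ball around `0` (KO1, KO0), the orbit of `p` meets it: `‖yv .. k p i‖ < 1/2`, and `(1/2)^M < 1/2`... for `M ≥ 2`; `Nat.find`. -/
def FAE_stmt : Prop := ∀ (n : ℕ) (c : ℂ) (Φ : ℕ → ℂ → ℂ) (b : ℕ → ℂ) (M k : ℕ) (p : ℂ), 1 ≤ M → Tow n c Φ b → p ∈ filled n c →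
  (∀ ε > (0 : ℝ), ∃ i : ℕ, ‖(fz n c)^[i] p‖ < ε) → ∃ t : ℕ, FA n c Φ b M k p t

/-- INR (short/medium): the inradius of `V_k` tends to `0`. Uses `HY.VKB_stmt`.
PROOF. Otherwise there are `k_j → ∞` and balls `ball z_j ε ⊆ V_(k_j) ⊆ ball 0 4`; a limit point `z` of `z_j`: `ball z (ε/2) ⊆ V_l` for all `l` (nested), so it is in `filled`. -/
def INR_stmt : Prop := ∀ (n : ℕ) (c : ℂ), 2 ≤ n → c ∈ multibrot n → interior (filled n c) = ∅ → ∀ ε > (0 : ℝ),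
  ∃ k₀ : ℕ, ∀ k ≥ k₀, ∀ z : ℂ, ¬ ball z ε ⊆ VV n c k

/-! ## The line field -/

/-- the measurable line field is almost constant on the balls `ball 0 (K s)` for all small `s`. -/
def CST (μ : ℂ → ℂ) : Prop := ∀ K ε : ℝ, 0 < K → 0 < ε → ∃ δ > (0 : ℝ), ∀ s : ℝ, 0 < s → s < δ →
  ∃ e : ℂ, ‖e‖ = 1 ∧ ∫ z in ball (0 : ℂ) (K * s), ‖μ z - e‖ ≤ ε * s ^ 2

/-- NLI (short/medium): pull back of the invariance under iterates. Compare `EX.NUL_stmt`, `EX.ITR_stmt` (Pool/Agent/helper44/EX/Spec.lean).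
PROOF. The invariance passes to `f^m` (composition, images and preimages of null sets under polynomials are null). For `X` injective holomorphic on `UD` preimages of null sets are null (`X` is a local diffeomorphism). -/
def NLI_stmt : Prop := ∀ (n : ℕ) (c : ℂ) (μ : ℂ → ℂ), 2 ≤ n → Measurable μ →
  (∀ᵐ z : ℂ, μ (fz n c z) * (starRingEnd ℂ) (deriv (fz n c) z) / deriv (fz n c) z = μ z) →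
  ∀ (m : ℕ) (X : ℂ → ℂ), DifferentiableOn ℂ X UD → InjOn X UD →
  ∀ᵐ y : ℂ, y ∈ UD → μ (X y) * (starRingEnd ℂ) (deriv X y) / deriv X y =
    μ ((fz n c)^[m] (X y)) * (starRingEnd ℂ) (deriv (fun x => (fz n c)^[m] (X x)) y) / deriv (fun x => (fz n c)^[m] (X x)) y

/-- CVX (short/medium): change of variables with constants. Uses `V3.KO0_stmt`, `V3.KO3_stmt`. Compare `EX.CVL_stmt`.
PROOF. KO3 with `η = 1/2`: `‖X'‖ ∈ [‖X' 0‖/C, C ‖X' 0‖]` on `ball 0 (1/2)`, `X '' ball 0 (1/2) ⊆ ball (X 0) (C ‖X' 0‖)`. `MeasureTheory.integral_image_eq_integral_abs_det_fderiv_smul` (determinant `‖X'‖²`). -/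
def CVX_stmt : Prop := ∃ C : ℝ, 1 ≤ C ∧ ∀ (X : ℂ → ℂ) (h : ℂ → ℝ) (s : ℝ), DifferentiableOn ℂ X UD → InjOn X UD →
  Measurable h → (∀ z, 0 ≤ h z ∧ h z ≤ 2) → 0 < s → s ≤ 1 / 2 →
  (∫ y in ball (0 : ℂ) s, h (X y)) * ‖deriv X 0‖ ^ 2 ≤ C * ∫ z in X '' ball (0 : ℂ) s, h z ∧
  ∫ z in X '' ball (0 : ℂ) s, h z ≤ C * ‖deriv X 0‖ ^ 2 * ∫ y in ball (0 : ℂ) s, h (X y)

/-- ARG (short): arguments of derivatives (pure, with KO3). Uses `V3.KO0_stmt`, `V3.KO3_stmt`.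
PROOF. `‖conj a/a - conj b/b‖ ≤ 2‖a - b‖/‖a‖`; KO3: `‖X' y - X' 0‖ ≤ C ‖y‖ ‖X' 0‖`. -/
def ARG_stmt : Prop := ∃ C : ℝ, 1 ≤ C ∧ ∀ (X : ℂ → ℂ), DifferentiableOn ℂ X UD → InjOn X UD → ∀ y : ℂ, ‖y‖ ≤ 1 / 2 →
  ‖(starRingEnd ℂ) (deriv X y) / deriv X y - (starRingEnd ℂ) (deriv X 0) / deriv X 0‖ ≤ C * ‖y‖

/-- CON (long): the line field is almost constant near `0` at all scales [P, 5]. Uses CVX, ARG, NLI, INR, BTP, `NZ.SCL_stmt`, `NZ.CFR_stmt`, `V3.KO0_stmt`, `V3.KO1_stmt`, `V3.KO3_stmt`.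
PROOF. `ρ_k = ‖(Φ k)' 0‖`. Hypothesis `hB`: for every `k` a branch `X`, time `t`. (i) NLI: for a.e. `y ∈ UD`: `μ (X y) conj(X' y)/X' y = μ (Φ k (c₂ y)) conj(D y)/D y`, `D y = c₂ (Φ k)'(c₂ y)` the derivative of `Y y = Φ k (c₂ y)` (injective on `UD`). (ii) ARG for `X` and `Y`: with `e = μ x conj(X' 0)/X' 0 · Y' 0/conj(Y' 0)` (`‖e‖ = 1`):
`‖μ (Y y) - e‖ ≤ ‖μ (X y) - μ x‖ + 2C‖y‖` for a.e. `‖y‖ ≤ 1/2`. (iii) `∫_(ball 0 s) ‖μ (X y) - μ x‖ ≤ C ‖X' 0‖^(-2) ∫_(ball (X 0) (C‖X' 0‖)) ‖μ - μ x‖ ≤ C' ε₁` if `‖X' 0‖` is small (hypothesis `hD`, DEN: `p = X 0`, radius `C‖X' 0‖`, `‖x - p‖ ≤ K‖X' 0‖`); `‖X' 0‖` is small for large `k`: KO1: `ball (X 0) (‖X' 0‖/C₁) ⊆ V_(k+t)`, INR.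
(iv) CVX for `Y`: `∫_(Y '' ball 0 s) ‖μ - e‖ ≤ C (c₂ ρ_k)² (C' ε₁ + 8 C s³)`. `Y '' ball 0 s ⊇ ball 0 (s c₂ ρ_k/C₁)` (KO1). (v) Given `K, ε` and a small scale `σ`: `ρ := C₁ K σ/(s c₂)`, SCL: `k` with `ρ ≤ ρ_k ≤ ρ/κ`: `ball 0 (K σ) ⊆ Y '' ball 0 s`, and the integral is `≤ C (C₁ K σ/(s κ))² (C'ε₁ + 8 C s³) = C'' σ² (ε₁/s² + s)`. Choose `s`, then `ε₁`, then the bound for `σ` (`k ≥ k₀`). -/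
def CON_stmt : Prop := ∀ (n : ℕ) (c : ℂ) (Φ : ℕ → ℂ → ℂ) (b : ℕ → ℂ) (μ : ℂ → ℂ) (x : ℂ) (c₂ K₂ : ℝ), Tow n c Φ b →
  interior (filled n c) = ∅ → Measurable μ → (∀ z, ‖μ z‖ ≤ 1) → ‖μ x‖ = 1 →
  (∀ᵐ z : ℂ, μ (fz n c z) * (starRingEnd ℂ) (deriv (fz n c) z) / deriv (fz n c) z = μ z) →
  (∀ K ε : ℝ, 0 < ε → ∃ δ > (0 : ℝ), ∀ (p : ℂ) (s : ℝ), 0 < s → s < δ → ‖x - p‖ ≤ K * s →
    ∫ z in ball p s, ‖μ z - μ x‖ ≤ ε * s ^ 2) →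
  0 < c₂ → c₂ ≤ 1 / 2 → 0 < K₂ →
  (∀ k : ℕ, ∃ (t : ℕ) (X : ℂ → ℂ), DifferentiableOn ℂ X UD ∧ InjOn X UD ∧ (∀ y ∈ UD, (fz n c)^[t] (X y) = Φ k (c₂ * y)) ∧
    (∀ y ∈ UD, X y ∈ VV n c (k + t)) ∧ ‖X 0 - x‖ ≤ K₂ * ‖deriv X 0‖) → CST μ

/-- PUL (long): the final contradiction, analytic part (pure) [P, 6]. Uses CVX, ARG, `V3.KO0_stmt`, `V3.KO1_stmt`, `V3.KO3_stmt`.
PROOF. `η = exp (iπ/(2(n-1)))`: `η^(n-1) = I`, so `conj(η^(n-1))/η^(n-1) = -1`. `q y = Ψ (y^n)`, `q' y = n y^(n-1) Ψ'(y^n)`. Almost everywhere on `UD`: `A y := μ (X y) conj(X' y)/X' y = μ (q y) conj(q' y)/q' y`. Let `a₁ = conj(X' 0)/X' 0`, `b₁ = conj(Ψ' 0)/Ψ' 0` and `D₀ = ball (s/2) (s/4)` (`s ≤ 1/2` small, fixed by `n`, centre the real number `s/2`), `D₀ ∪ η D₀ ⊆ ball 0 s`.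
(1) `∫_(ball 0 s) ‖A y - e a₁‖ ≤ ∫ ‖μ (X y) - e‖ + ∫ C‖y‖ ≤ C ε + C s · 4 s²` (CVX, `X '' ball 0 s ⊆ ball 0 (K λ)`, ARG). (2) on `D₀ ∪ η D₀`: `‖conj(q')/q' - (conj(y^(n-1))/y^(n-1)) b₁‖ ≤ C s`, and `∫_(D₀ ∪ ηD₀) ‖μ (q y) - e'‖ ≤ C_n,s ε`: `q` is a local diffeomorphism with `‖q'‖ ≥ c_n s^(n-1) ρ/K` on `D₀` and injective on `D₀`
if the sector is small: `y ↦ y^n` is injective on `ball (s/2) (s/(8n))`; so take `D₀ = ball (s/2) (s/(8n))`; change of variables: `∫_(D₀) ‖μ (q y) - e'‖ ‖q'‖² ≤ ∫_(ball 0 (Kρ)) ‖μ - e'‖ ≤ ε ρ²`. The same for `η D₀`. (3) For `y ∈ D₀` put `β y = conj(y^(n-1))/y^(n-1)`: `A y ≈ e' β y b₁`, `A (η y) ≈ -e' β y b₁`, and both `≈ e a₁`: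
`2 = ‖e' β b₁ - (-e' β b₁)‖ ≤ ‖A y - e'β b₁‖ + ‖A (ηy) + e' β b₁‖ + ‖A y - e a₁‖ + ‖A(ηy) - e a₁‖`; integrate over `D₀` (area `π s²/(64 n²)`): `2 area ≤ C s³ + C_(n,s,K) ε`: contradiction for `s` small (depending on `n`), then `ε` small. -/
def PUL_stmt : Prop := ∃ K₀ : ℝ, 1 ≤ K₀ ∧ ∀ n : ℕ, 2 ≤ n → ∀ K ≥ K₀, ∃ ε > (0 : ℝ), ∀ (μ X Ψ : ℂ → ℂ) (ρ : ℝ) (e e' : ℂ),
  Measurable μ → (∀ z, ‖μ z‖ ≤ 1) → DifferentiableOn ℂ X UD → InjOn X UD → X 0 = 0 →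
  DifferentiableOn ℂ Ψ UD → InjOn Ψ UD → 0 < ρ → (∀ y ∈ UD, ‖Ψ y‖ < K * ρ) → ρ ≤ K * ‖deriv Ψ 0‖ →
  (∀ᵐ y : ℂ, y ∈ UD → μ (X y) * (starRingEnd ℂ) (deriv X y) / deriv X y =
    μ (Ψ (y ^ n)) * (starRingEnd ℂ) (deriv (fun x => Ψ (x ^ n)) y) / deriv (fun x => Ψ (x ^ n)) y) →
  ‖e‖ = 1 → ‖e'‖ = 1 → ∫ z in ball (0 : ℂ) (K * ‖deriv X 0‖), ‖μ z - e‖ ≤ ε * ‖deriv X 0‖ ^ 2 →
  ∫ z in ball (0 : ℂ) (K * ρ), ‖μ z - e'‖ ≤ ε * ρ ^ 2 → False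

/-- LFT (medium): the lifted branch at the critical point [P, 6]. Uses BTP, TSG, COP, TOW, `HY.RMI_stmt`, `HY.MOB_stmt`, `HY.VKB_stmt`, `V3.KO0_stmt`, `V3.KO3_stmt`.
PROOF. `y i = yv Φ n c k c i` (`c ∈ filled`), `j` the first index with `2^(-M) < 1 - ‖y j‖` (exists: hypothesis on the orbit, as in FAE with `p = c`). `Orb n c (Φ k) M y j`. `CL` (SG from TSG) with `i = 0`: `H`, `H 0 = y 0`, `f^j(Φ k (H x)) = Φ k (S (y j) (x/16))`. `X₁ = Φ k ∘ H`, `X₁ 0 = c`, injective; RMI for `V = X₁ '' UD`: `X`, `X 0 = 0`, `f(X x) = X₁ (x^n)`.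
`f^(j+1)(X x) = f^j(X₁ (x^n)) = Ψ (x^n)`, `Ψ x = Φ k (S (y j) (x/16))`. `X x ∈ V_(k+1)` as `f(X x) ∈ V_k`. `‖S (y j) (x/16)‖ ≤ (t₀ + 1/16)/(1 + t₀/16) =: τ < 1`, `t₀ = 1 - 2^(-M)`: KO3 (`η = 1 - τ` halved) for `Φ k` on `UD`: `‖Ψ x‖ < K ρ_k`, `‖Ψ' 0‖ = ‖(Φ k)'(y j)‖ (1 - ‖y j‖²)/16 ≥ ρ_k/K`, `ρ_k = ‖(Φ k)' 0‖`. -/
def LFT_stmt : Prop := ∀ M : ℕ, 1 ≤ M → ∃ K : ℝ, 0 < K ∧ ∀ (n : ℕ) (r : ℝ) (c : ℂ) (Φ : ℕ → ℂ → ℂ) (b : ℕ → ℂ), CL n r M →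
  Tow n c Φ b → Disjoint (ball c r) (hyperbolic n) → (∀ ε > (0 : ℝ), ∃ i : ℕ, ‖(fz n c)^[i] c‖ < ε) → ∀ k : ℕ,
  ∃ (m : ℕ) (X Ψ : ℂ → ℂ), DifferentiableOn ℂ X UD ∧ InjOn X UD ∧ X 0 = 0 ∧ (∀ x ∈ UD, X x ∈ VV n c (k + 1)) ∧
    DifferentiableOn ℂ Ψ UD ∧ InjOn Ψ UD ∧ (∀ x ∈ UD, (fz n c)^[m] (X x) = Ψ (x ^ n)) ∧
    (∀ x ∈ UD, ‖Ψ x‖ < K * ‖deriv (Φ k) 0‖) ∧ ‖deriv (Φ k) 0‖ ≤ K * ‖deriv Ψ 0‖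

/-- EN1 (medium): an almost constant line field is impossible [P, 6]. Uses LFT, PUL, NLI, INR, `V3.KO0_stmt`, `V3.KO1_stmt`.
PROOF. `K ≥` the constants of LFT and PUL; `ε` from PUL; `δ` from `CST μ` for `K, ε`. INR and KO1: for large `k` `‖X' 0‖ < δ` (`ball 0 (‖X' 0‖/C) ⊆ X '' UD ⊆ V_(k+1)`), `‖(Φ k)' 0‖ < δ`; both are positive (KO0). NLI for `X`, `m`; on `UD` `(fz n c)^[m] ∘ X = Ψ(·^n)` so the derivatives agree (open set). PUL with `ρ = ‖(Φ k)' 0‖`. -/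
def EN1_stmt : Prop := ∀ (n : ℕ) (r : ℝ) (M : ℕ) (c : ℂ) (Φ : ℕ → ℂ → ℂ) (b : ℕ → ℂ) (μ : ℂ → ℂ), 1 ≤ M → CL n r M → Tow n c Φ b →
  Disjoint (ball c r) (hyperbolic n) → interior (filled n c) = ∅ → (∀ ε > (0 : ℝ), ∃ i : ℕ, ‖(fz n c)^[i] c‖ < ε) →
  Measurable μ → (∀ z, ‖μ z‖ ≤ 1) →
  (∀ᵐ z : ℂ, μ (fz n c z) * (starRingEnd ℂ) (deriv (fz n c) z) / deriv (fz n c) z = μ z) → ¬ CST μ

/-- the standing facts about a parameter outside the closure of the hyperbolic parameters. -/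
structure Typ (n : ℕ) (c : ℂ) (μ : ℂ → ℂ) (x : ℂ) : Prop where
  meas : Measurable μ
  bd : ∀ z, ‖μ z‖ ≤ 1
  val : ‖μ x‖ = 1
  inv : ∀ᵐ z : ℂ, μ (fz n c z) * (starRingEnd ℂ) (deriv (fz n c) z) / deriv (fz n c) z = μ z
  den : ∀ K ε : ℝ, 0 < ε → ∃ δ > (0 : ℝ), ∀ (p : ℂ) (s : ℝ), 0 < s → s < δ → ‖x - p‖ ≤ K * s →
    ∫ z in ball p s, ‖μ z - μ x‖ ≤ ε * s ^ 2
  mem : x ∈ filled n c
  rcx : ∀ ε > (0 : ℝ), ∃ i : ℕ, ‖(fz n c)^[i] x‖ < ε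
  crit : ∀ ε > (0 : ℝ), ∃ i : ℕ, ‖(fz n c)^[i] c‖ < ε
  int : interior (filled n c) = ∅
  ar : BR.AR n c

/-- TYQ (short/medium): the typical point. Uses `BR.BRG_stmt`, `NZ.LAM_stmt`, `EX.DEN_stmt`; `UP.NRP` (Pool/Agent/helper26/UP/All.lean, proved) for the orbit of `c`.
PROOF. BRG (with a ball from `BR.exists_ball`, Pool/Agent/helper45/BR/Cor.lean): an invariant line field `μ`, `interior filled = ∅`, `AR n c`, `juliaSet = filled`. `{μ ≠ 0}` has positive area, DEN and LAM (for `ε = 1/(m+1)`) hold almost everywhere: choose `x` with `μ x ≠ 0`, DEN, and `x ∉ UP.Lam n c (1/(m+1))` for all `m`. `x ∈ juliaSet = filled`. `‖μ z‖ ≤ 1` as `μ z ≠ 0 → ‖μ z‖ = 1`. -/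
def TYQ_stmt : Prop := ∀ n : ℕ, 2 ≤ n → ∀ c ∈ multibrot n, c ∉ closure (hyperbolic n) → ∃ (μ : ℂ → ℂ) (x : ℂ), Typ n c μ x

/-! ## Conclusion -/

/-- PSX (block of helper52): power saving. `M` is large. -/
def PSX_stmt : Prop := ∀ n : ℕ, 2 ≤ n → ∀ r > (0 : ℝ), ∃ (M : ℕ) (C γ : ℝ), 1 ≤ M ∧ CL n r M ∧ 0 ≤ C ∧ 0 ≤ γ ∧ γ < 1 ∧
  PSP n r M C γ

/-- FIN (short): THE THEOREM. Uses TOW, PSX, CLS, FAE, CON, EN1, TYQ.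
PROOF. Suppose `c ∉ closure (hyperbolic n)`; `r` from `BR.exists_ball`; PSX: `M, C, γ`; TOW: `Φ, b`; TYQ: `μ, x`; CLS: `c₂, K`; for every `k` FAE: `t`, and CLS with `p = x`: the branch. CON: `CST μ`. EN1: contradiction. -/
def FIN_stmt : Prop := ∀ n : ℕ, 2 ≤ n → ∀ c ∈ multibrot n, c ∈ closure (hyperbolic n)

end DH
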