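import Pool.Agent.helper56.NZ.Spec

/-!
# Project dh: definitions (common for ed:, dh:)
-/

set_option autoImplicit false

open Complex Metric Set Filter Topology MeasureTheory
open Pool.Agent.helper98.ILF Pool.Agent.helper16.Multibrot
open HY (UD T S hd UN RM VV SG Orb fz)

noncomputable section

namespace DH

/-! ## Definitions -/

/-- the coordinate of the point `z` with respect to the Riemann map `φ`. -/
def co (φ : ℂ → ℂ) (z : ℂ) : ℂ := Function.invFunOn φ UD z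

/-- the tower of Riemann maps. -/
structure Tow (n : ℕ) (c : ℂ) (Φ : ℕ → ℂ → ℂ) (b : ℕ → ℂ) : Prop where
  hn : 2 ≤ n
  hc : c ∈ multibrot n
  rm : ∀ l, RM (VV n c l) 0 (Φ l)
  hb : ∀ l, b l ∈ UD
  hbc : ∀ l, Φ l (b l) = c
  rel : ∀ l, ∀ x ∈ UD, fz n c (Φ (l + 1) x) = Φ l (S (b l) (x ^ n))

/-- the coordinate in `V_k` of the point `f^i p`. -/
def yv (Φ : ℕ → ℂ → ℂ) (n : ℕ) (c : ℂ) (k : ℕ) (p : ℂ) (i : ℕ) : ℂ := co (Φ k) ((fz n c)^[i] p)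

/-- the inclusion `V_l → V_k` (`k ≤ l`) in coordinates. -/
def jj (Φ : ℕ → ℂ → ℂ) (k l : ℕ) (x : ℂ) : ℂ := co (Φ k) (Φ l x)

/-- the Riemann map of `V_(k+t)` with value `p` at `0`. -/
def ch (Φ : ℕ → ℂ → ℂ) (n : ℕ) (c : ℂ) (k t : ℕ) (p w : ℂ) : ℂ := Φ (k + t) (S (yv Φ n c (k + t) p 0) w)

/-- `f^i : (V_(k+t), p) → (V_(k+t-i), 0)` in coordinates (`i ≤ t`): `bt .. i 0 = yv .. (k+t-i) p i`. -/
def bt (Φ : ℕ → ℂ → ℂ) (n : ℕ) (c : ℂ) (k t : ℕ) (p : ℂ) (i : ℕ) (w : ℂ) : ℂ :=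
  co (Φ (k + t - i)) ((fz n c)^[i] (ch Φ n c k t p w))

/-- the times `i < t` whose obstacle `f^(t-i) 0` is in the ball of radius `B` about `0` (coordinate of `V_k`). -/
def REL (Φ : ℕ → ℂ → ℂ) (n : ℕ) (c : ℂ) (k t : ℕ) (B : ℝ) : Finset ℕ :=
  (Finset.range t).filter (fun i => ‖yv Φ n c k 0 (t - i)‖ < B)

/-- the conclusion of `HY.CLB` for the number `M`. -/
def CL (n : ℕ) (r : ℝ) (M : ℕ) : Prop := ∀ c ∈ multibrot n, Disjoint (ball c r) (hyperbolic n) →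
  ∀ (V : Set ℂ) (φ ψ : ℂ → ℂ) (b : ℂ), SG n c V φ ψ b → ∀ (y : ℕ → ℂ) (j : ℕ), Orb n c φ M y j → ∀ i ≤ j,
  ∃ H : ℂ → ℂ, UN H ∧ H 0 = y i ∧ (∀ x ∈ UD, (fz n c)^[j - i] (φ (H x)) = φ (S (y j) (x / 16))) ∧
    ∀ x ∈ UD, ‖T (y i) (H x)‖ ≤ 1 / 4

/-- first approach: `t` is the first time at which the orbit of `p` is at bounded distance from `0` in `V_k`. -/
structure FA (n : ℕ) (c : ℂ) (Φ : ℕ → ℂ → ℂ) (b : ℕ → ℂ) (M k : ℕ) (p : ℂ) (t : ℕ) : Prop where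
  tow : Tow n c Φ b
  mem : p ∈ filled n c
  far : ∀ i < t, 1 - ‖yv Φ n c k p i‖ ≤ (1 / 2 : ℝ) ^ M
  near : (1 / 2 : ℝ) ^ M < 1 - ‖yv Φ n c k p t‖

/-- POWER SAVING (block of helper52). The obstacles with `‖v‖ < 1 - 2^(-(M+2))` and `1 - ‖a‖ ≥ g` are at most `C g^(-γ)` in number, `a` = coordinate of `f^i p` in `V_(k+t-i)`. -/
def PSP (n : ℕ) (r : ℝ) (M : ℕ) (C γ : ℝ) : Prop := ∀ c ∈ multibrot n, Disjoint (ball c r) (hyperbolic n) →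
  ∀ (Φ : ℕ → ℂ → ℂ) (b : ℕ → ℂ) (k : ℕ) (p : ℂ) (t : ℕ), FA n c Φ b M k p t → ∀ g : ℝ, 0 < g → g ≤ 1 →
  ((((REL Φ n c k t (1 - (1 / 2 : ℝ) ^ (M + 2))).filter (fun i => g ≤ 1 - ‖yv Φ n c (k + t - i) p i‖)).card : ℕ) : ℝ) ≤
    C * g ^ (-γ)


end DH
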